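import Pool.Agent.X248.OHF.Main

/-!
# Colouring odd-hole-free graphs is NP-hard

The graph of an instance of exact cover by 3-sets (with `3q` elements and `m` triples) is the
complement of the following graph: the elements are vertices, and each triple `{x, y, z}` gives a
prism with the triangles `p₁p₃p₅` and `p₂p₄p₆` and the rungs `p₁p₂`, `p₃p₄`, `p₅p₆`, whose ends are
joined to `x`, `y` and `z`, respectively. This graph has no diamond, no `K₄` and no induced cycle
with five vertices, so the complement has no odd hole and no four independent vertices; and the
complement can be coloured with `q + 2m` colours exactly when the graph has a partition into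
triangles, that is, when the instance has an exact cover.
-/

set_option autoImplicit false

namespace Pool.Agent.Results.MP_27b024_lc.ColouringNPHard

open Pool.Agent.NPC Pool.Agent.H622R2 Pool.Agent.X248.OHF

/-- **Colouring odd-hole-free graphs is NP-hard.** Every language in `NP` has a polynomial-time
many-one reduction to `k`-colourability (with `k` in the input) all of whose outputs are
odd-hole-free graphs without four pairwise non-adjacent vertices; and if some polynomial-time
algorithm outputs an optimal colouring of every odd-hole-free graph, then `P = NP`. -/
theorem result :
    (∀ L : Set (List Bool), InNP L → ∃ f : List Bool → List (List Bool) × ℕ,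
      PolyTime (fun x => bits (f x)) ∧ ∀ x, OddHoleFree (matGraph (f x).1) ∧
        (∀ s : Finset (Fin (f x).1.length), (matGraph (f x).1).IsIndepSet s → s.card ≤ 3) ∧
        (x ∈ L ↔ (matGraph (f x).1).Colorable (f x).2)) ∧
    (PolyOptCol → ∀ L : Set (List Bool), InNP L → InP L) := by
  refine ⟨fun L hL => ?_, collapse⟩
  obtain ⟨f, hf, hp, hfL⟩ := hardPr_col3 L hL
  exact ⟨f, PC.toPolyTime hf, fun x => ⟨(hp x).1, (hp x).2, hfL x⟩⟩

end Pool.Agent.Results.MP_27b024_lc.ColouringNPHard
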